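import Pool.Agent.U693.UN.Final

/-!
# The curves of `U693/UN` are twists of curves with squarefree discriminant: counting with more information

Adapted from `Pool.Agent.U693.UN.Cnt` (helper693) and `Pool.Agent.N922.PX.Cnt3` (helper922).
-/

set_option autoImplicit false
set_option linter.all false

open Polynomial IsDedekindDomain NumberField
open scoped Classical IntermediateField

namespace Pool.Agent.U845.UP

open Pool.Agent.U693.UN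
open Pool.Agent.N922.PQ hiding Cnd cnd_sq cnd_mul cnd_sig base_sq odd_top ns_top cnd_top

/-- More information on the curves which we find: `(A, B) = (a D ^ 2, b D ^ 3)`. -/
structure TwistU (S T₀ : Finset ℤ) (p : ℤ × ℤ) (a b D : ℤ) : Prop where
  eA : p.1 = a * D ^ 2
  eB : p.2 = b * D ^ 3
  pos : 0 < 4 * a ^ 3 + 27 * b ^ 2
  sq : Squarefree (4 * a ^ 3 + 27 * b ^ 2)
  oa : Odd a
  ob : Odd b
  D0 : D ≠ 0
  irr : ∀ P ∈ T₀, ¬ P ∣ D ∧ ∀ z : ℤ, ¬ P ∣ z ^ 3 + a * z + b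
  spl : ∀ P : ℤ, IsPr P → P ∣ D → P ∈ S ∧ ¬ P ∣ 4 * a ^ 3 + 27 * b ^ 2

theorem mem_of_dvd_prod {S J : Finset ℤ} {s : ℤ → ℤ} (hS : GoodS S s) (hJ : J ⊆ S) {P : ℤ}
    (hP : IsPr P) (hd : P ∣ ∏ Q ∈ J, Q) : P ∈ J := by
  obtain ⟨Q, hQ, hPQ⟩ := (hP.2.dvd_finset_prod_iff _).1 hd
  have hPe : P = Q := by
    by_contra hne
    have h6 := isCoprime_of hP (hS Q (hJ hQ)).1 hne
    exact hP.2.not_unit (h6.isUnit_of_dvd' dvd_rfl hPQ)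
  rw [hPe]
  exact hQ

theorem twistU_of {X' : ℕ} {S T₀ J : Finset ℤ} {s A B : ℤ → ℤ} {a b : ℤ} (hS : GoodS S s)
    (hT : GoodT T₀ A B) (hF : Fam X' S s T₀ A B a b) (hJ : J ⊆ S) (hdis : Disjoint S T₀) :
    TwistU S T₀ (a * (∏ Q ∈ J, Q) ^ 2, b * (∏ Q ∈ J, Q) ^ 3) a b (∏ Q ∈ J, Q) := by
  obtain ⟨ha, hb⟩ := odd_of (fam_nt hT hF hT.1)
  refine ⟨rfl, rfl, ?_, hF.sq, ha, hb, (Finset.prod_pos fun Q hQ => (hS Q (hJ hQ)).1.1).ne',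
    ?_, ?_⟩
  · have h5 := hF.pa
    positivity
  · intro P hPT
    have hP := (hT.2.2 P hPT).1
    refine ⟨fun hd => ?_, fam_nt hT hF hPT⟩
    have h1 := mem_of_dvd_prod hS hJ hP hd
    exact Finset.disjoint_left.1 hdis (hJ h1) hPT
  · intro P hP hd
    have hPJ := mem_of_dvd_prod hS hJ hP hd
    have hQS := hS P (hJ hPJ)
    refine ⟨hJ hPJ, fun h5 => ?_⟩
    have h6 : P ∣ 4 * a ^ 3 := by
      have h7 : P ∣ 27 * b ^ 2 := dvd_mul_of_dvd_right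
        (dvd_pow (hF.rb P (hJ hPJ)) two_ne_zero) _
      have := dvd_sub h5 h7
      rwa [add_sub_cancel_right] at this
    have hP8 := hQS.2.1
    have h8 : ¬ P ∣ 4 := by
      intro h9
      have := Int.le_of_dvd (by norm_num) h9
      have hp0 := hP.1
      have : P = 1 := by omega
      exact hP.2.not_unit (this ▸ isUnit_one)
    rcases hP.2.dvd_or_dvd h6 with h9 | h9
    · exact h8 h9
    · have h10 : P ∣ a := hP.2.dvd_of_dvd_pow h9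
      have h11 : P ∣ s P := by
        have := dvd_sub h10 (hF.ra P (hJ hPJ))
        rwa [sub_sub_cancel] at this
      exact hQS.2.2 0 (by simpa using h11)

/-- The property of the curves with more information. -/
def GoodP (S T₀ : Finset ℤ) (p : ℤ × ℤ) : Prop :=
  GoodU S T₀ p ∧ ∃ a b D, TwistU S T₀ p a b D

/-- The main theorem from the parts; with a bound of order `X ^ 5`. -/
theorem mainP (H : Parts2) (hLB : S_LB) (hFAM : S_FAM2) (hBAD : S_BAD)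
    (hGFR : Pool.Agent.N874.PM.S_GFR)
    (hFINM : S_FINM) (hTOR : S_TOR) (hCRV : S_CRV) {T₀ : Finset ℤ} {A B : ℤ → ℤ}
    (hT₀ : GoodT T₀ A B) (Φ : ℤ → Prop)
    (hEX : ∀ r : ℕ, ∃ (S : Finset ℤ) (s : ℤ → ℤ), GoodS S s ∧ S.card = r ∧ Disjoint S T₀ ∧
      ∀ Q ∈ S, Φ Q) :
    ∃ (S : Finset ℤ) (s : ℤ → ℤ), GoodS S s ∧ Disjoint S T₀ ∧ (∀ Q ∈ S, Φ Q) ∧
    ∃ (P X₀ : ℕ) (c : ℝ), 0 < c ∧ 1 ≤ P ∧ ∀ X : ℕ, X₀ ≤ X → ∀ H : ℕ, 27 * (X * P) ^ 6 ≤ H →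
      c * (X : ℝ) ^ 5 ≤ ({p : ℤ × ℤ | Crv H p.1 p.2 ∧ GoodP S T₀ p}.ncard : ℝ) := by
  obtain ⟨κ, hLB'⟩ := hLB
  obtain ⟨S, s, c, hS, hdis, hsp, hc, X₀, hX₀⟩ := good_card2 hFAM hBAD κ hT₀ Φ hEX
  have hSpos : 0 < ∏ Q ∈ S, Q := Finset.prod_pos fun Q hQ => (hS Q hQ).1.1
  refine ⟨S, s, hS, hdis, hsp, (∏ Q ∈ S, Q).toNat, X₀, c / 2 ^ S.card,
    by positivity, by omega, fun X hX Hh hHh => ?_⟩
  have hN := hX₀ X hX
  set Hs := {p : ℤ × ℤ | Crv Hh p.1 p.2 ∧ GoodP S T₀ p} with hH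
  set G := {p : ℤ × ℤ | (Fam X S s T₀ A B p.1 p.2 ∧ (4 : ℤ) ∣ p.1 - p.2) ∧
    ¬ LBad κ X S s p.1 p.2} with hG'
  have hHf : Hs.Finite := (crv_fin Hh).subset fun p hp => hp.1
  have hbd : 27 * ((X : ℤ) * ∏ Q ∈ S, Q) ^ 6 ≤ Hh := by
    have h1 : ((27 * (X * (∏ Q ∈ S, Q).toNat) ^ 6 : ℕ) : ℤ) ≤ Hh := by exact_mod_cast hHh
    have e1 : (((∏ Q ∈ S, Q).toNat : ℕ) : ℤ) = ∏ Q ∈ S, Q := Int.toNat_of_nonneg hSpos.le
    rw [Nat.cast_mul, Nat.cast_pow, Nat.cast_mul, e1] at h1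
    exact_mod_cast h1
  have hcard := card_fib hHf S
    (fun (J : Finset ℤ) (p : ℤ × ℤ) => (p.1 * (∏ Q ∈ J, Q) ^ 2, p.2 * (∏ Q ∈ J, Q) ^ 3)) (G := G) (by
      rintro p ⟨⟨hpF, hp4⟩, hnb⟩
      obtain ⟨J, hJ, hgood⟩ := good_one H hLB' hGFR hFINM hTOR hS hpF hp4 hnb hT₀ hdis
      exact ⟨J, hJ, hCRV X Hh S T₀ s A B p.1 p.2 hS hT₀ hpF J hJ hbd, hgood, _, _, _,
        twistU_of hS hT₀ hpF hJ hdis⟩) (by
      intro J hJ x hx y hy hxy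
      have hD0 : (∏ Q ∈ J, Q) ≠ 0 := by
        rw [Finset.prod_ne_zero_iff]
        exact fun Q hQ => (hS Q (hJ hQ)).1.2.ne_zero
      rw [Prod.mk.injEq] at hxy
      exact twist_inj hD0 hxy.1 hxy.2)
  have hcard' : (G.ncard : ℝ) ≤ 2 ^ S.card * Hs.ncard := by exact_mod_cast hcard
  calc c / 2 ^ S.card * (X : ℝ) ^ 5
      = c * (X : ℝ) ^ 5 / 2 ^ S.card := by ring
    _ ≤ (G.ncard : ℝ) / 2 ^ S.card := by gcongr
    _ ≤ (2 ^ S.card * Hs.ncard) / 2 ^ S.card := by gcongr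
    _ = Hs.ncard := by field_simp

end Pool.Agent.U845.UP
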