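import Pool.Agent.U693.UN.Final
import Pool.Agent.N922.PX.Final

/-!
# The product of the ramified primes; completely split primes are not stable
-/

set_option autoImplicit false
set_option linter.all false

open Polynomial IsDedekindDomain NumberField
open scoped Classical IntermediateField

namespace Pool.Agent.U845.UP

open Pool.Agent.U693.UN
open Pool.Agent.N922.PQ (IsPr Ov exists_below below_unique one_mem_of)
open Pool.Agent.N922.PX (Fixed)

section del

variable {M : Type} [Field M] [NumberField M]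

/-- At an unramified prime the valuation restricts to the valuation of `ℚ`. -/
theorem urO (w : HeightOneSpectrum (𝓞 M)) {P : ℤ}
    (hw : w.valuation M (P : M) = WithZero.exp (-1 : ℤ)) : ∃ 𝔓 : HeightOneSpectrum (𝓞 ℚ),
      ∀ x : ℚ, w.valuation M (algebraMap ℚ M x) = 𝔓.valuation ℚ x := by
  refine ⟨below (L := ℚ) w, fun x => ?_⟩
  have hl : w.asIdeal.LiesOver (below (L := ℚ) w).asIdeal := below_lies w
  have h2 := HeightOneSpectrum.valuation_liesOver M (below (L := ℚ) w) w (P : ℚ)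
  rw [map_intCast (algebraMap ℚ M), hw] at h2
  have h3 := HeightOneSpectrum.valuation_liesOver M (below (L := ℚ) w) w x
  rw [exp_pow h2, pow_one] at h3
  exact h3.symm

variable (M) in
/-- The prime number `P` is ramified. -/
def Ram (P : ℤ) : Prop := ∃ 𝔭 : Ideal (𝓞 M), 𝔭.IsPrime ∧ (P : 𝓞 M) ∈ 𝔭 ^ 2

variable (M) in
/-- The product of the ramified primes. -/
theorem exists_delta : ∃ δ : ℤ, (∀ P : ℤ, IsPr P → P ∣ δ → Ram M P) ∧
    ∀ v : HeightOneSpectrum (𝓞 M), ¬ Ov δ v → ∃ 𝔓 : HeightOneSpectrum (𝓞 ℚ),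
      ∀ x : ℚ, v.valuation M (algebraMap ℚ M x) = 𝔓.valuation ℚ x := by
  obtain ⟨γ, g, δ, hG, hdeg⟩ := Pool.Agent.N40.PQ.gen M
  have hf : {P : ℤ | IsPr P ∧ P ∣ δ ∧ Ram M P}.Finite := by
    refine (Set.finite_Icc (-|δ|) |δ|).subset ?_
    rintro P ⟨-, h, -⟩
    have h3 : |P| ≤ |δ| := Int.le_of_dvd (abs_pos.2 hG.ne) ((abs_dvd_abs P δ).2 h)
    exact abs_le.1 h3
  refine ⟨∏ P ∈ hf.toFinset, P, fun P hP hd => ?_, fun v hv => ?_⟩
  · obtain ⟨Q, hQ, hPQ⟩ := (hP.2.dvd_finset_prod_iff _).1 hd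
    obtain ⟨hQ1, hQ2, hQ3⟩ := hf.mem_toFinset.1 hQ
    have hPe : P = Q := by
      by_contra hne
      have h6 := Pool.Agent.N922.PQ.isCoprime_of hP hQ1 hne
      exact hP.2.not_unit (h6.isUnit_of_dvd' dvd_rfl hPQ)
    rw [hPe]
    exact hQ3
  · obtain ⟨P, hP, hPv⟩ := exists_below v
    by_cases hPr : Ram M P
    · have hnd : ¬ P ∣ δ := by
        intro hd
        apply hv
        have h1 : P ∣ ∏ P ∈ hf.toFinset, P :=
          Finset.dvd_prod_of_mem (fun P => P) (hf.mem_toFinset.2 ⟨hP, hd, hPr⟩)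
        obtain ⟨k, hk⟩ := h1
        unfold Ov at hPv ⊢
        rw [hk]
        push_cast
        exact Ideal.mul_mem_right _ _ hPv
      have h2 : ¬ Ov δ v := fun h => one_mem_of
        ((hP.2.irreducible.coprime_iff_not_dvd).2 hnd) hPv h
      exact (Pool.Agent.N362.PQ.ur ℚ M (𝓞 ℚ) (𝓞 M) γ g δ hG).1 v h2
    · exact urO v (val_exp v hPv fun h => hPr ⟨v.asIdeal, v.isPrime, h⟩)

/-- A prime which splits completely is not stable. -/
theorem not_fixed' [IsGalois ℚ M] {n : ℕ} (hM : Module.finrank ℚ M = 2 ^ n) (hn : 1 ≤ n) {P : ℤ}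
    (v : HeightOneSpectrum (𝓞 M)) (hv : Ov P v) (h1 : (P : 𝓞 M) ∉ v.asIdeal ^ 2)
    (h2 : ∀ x : 𝓞 M, ∃ c : ℤ, x - (c : 𝓞 M) ∈ v.asIdeal) : ¬ Fixed v := by
  intro hfix
  have key : ∀ σ : M ≃ₐ[ℚ] M, σ = 1 := by
    intro σ
    refine inertia_of_val v (val_exp v hv h1) σ fun x => ?_
    obtain ⟨c, hc⟩ := h2 x
    have h3 : σ • (x - (c : 𝓞 M)) ∈ v.asIdeal := by
      rw [← HeightOneSpectrum.valuation_lt_one_iff_mem (K := M)] at hc ⊢
      exact (hfix σ _).trans_lt hc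
    have h4 : σ • (x - (c : 𝓞 M)) = σ • x - (c : 𝓞 M) := by
      rw [smul_sub]
      congr 1
      apply RingOfIntegers.ext
      change σ ((c : 𝓞 M) : M) = ((c : 𝓞 M) : M)
      have : (((c : 𝓞 M)) : M) = (c : M) := by
        exact map_intCast (algebraMap (𝓞 M) M) c
      rw [this, map_intCast]
    rw [h4] at h3
    have h5 := sub_mem h3 hc
    rwa [sub_sub_sub_cancel_right] at h5
  have h6 : Nat.card (M ≃ₐ[ℚ] M) = 1 := by
    rw [Nat.card_eq_one_iff_unique]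
    exact ⟨⟨fun a b => (key a).trans (key b).symm⟩, ⟨1⟩⟩
  rw [IsGalois.card_aut_eq_finrank, hM] at h6
  have : 2 ≤ 2 ^ n := by
    calc 2 = 2 ^ 1 := rfl
      _ ≤ 2 ^ n := Nat.pow_le_pow_right (by norm_num) hn
  omega

end del

end Pool.Agent.U845.UP
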