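import Pool.Agent.U693.UN.Om

/-!
# The prime `2` is not inert in composita and in the quadratic fields
-/

set_option autoImplicit false
set_option linter.all false

open Polynomial IsDedekindDomain NumberField
open scoped Classical IntermediateField

namespace Pool.Agent.U845.UP

/-- If `2` is not inert in `M` then it is not inert in larger fields. -/
theorem not_inert_comp {M N : Type} [Field M] [NumberField M] [Field N] [NumberField N]
    [Algebra M N] (h : ¬ (Ideal.span {(2 : 𝓞 M)}).IsPrime) :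
    ¬ (Ideal.span {(2 : 𝓞 N)}).IsPrime := by
  intro hp
  apply h
  have h1 : (Ideal.comap (algebraMap (𝓞 M) (𝓞 N)) (Ideal.span {(2 : 𝓞 N)})).IsPrime :=
    Ideal.comap_isPrime _ _
  have h2 : Ideal.comap (algebraMap (𝓞 M) (𝓞 N)) (Ideal.span {(2 : 𝓞 N)}) =
      Ideal.span {(2 : 𝓞 M)} := by
    apply le_antisymm
    · intro x hx
      rw [Ideal.mem_comap, Ideal.mem_span_singleton] at hx
      obtain ⟨y, hy⟩ := hx
      have h3 : algebraMap M N ((x : M) / 2) = (y : N) := by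
        have h4 : algebraMap M N (x : M) = 2 * (y : N) := by
          have h5 := congrArg (algebraMap (𝓞 N) N) hy
          rw [map_mul, map_ofNat] at h5
          rw [← IsScalarTower.algebraMap_apply (𝓞 M) (𝓞 N) N,
            IsScalarTower.algebraMap_apply (𝓞 M) M N] at h5
          exact h5
        rw [map_div₀, h4, map_ofNat]
        field_simp
      have h6 : IsIntegral ℤ ((x : M) / 2) := by
        rw [← isIntegral_algebraMap_iff (algebraMap M N).injective, h3]
        exact y.isIntegral_coe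
      rw [Ideal.mem_span_singleton]
      refine ⟨⟨_, h6⟩, ?_⟩
      apply RingOfIntegers.ext
      change (x : M) = ((2 : 𝓞 M) : M) * ((x : M) / 2)
      have h7 : ((2 : 𝓞 M) : M) = 2 := map_ofNat (algebraMap (𝓞 M) M) 2
      rw [h7]
      field_simp
    · rw [Ideal.span_singleton_le_iff_mem, Ideal.mem_comap, map_ofNat]
      exact Ideal.mem_span_singleton_self _
  rw [← h2]
  exact h1

/-- A root of `2 X ^ 2 - X - m` which is not rational is not integral. -/
theorem no_int {M : Type} [Field M] [CharZero M] {y : M} (hy : IsIntegral ℤ y) {m : ℤ}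
    (h : 2 * y ^ 2 - y - m = 0) (hirr : ∀ q : ℚ, (q : M) ≠ y) : False := by
  have hyQ : IsIntegral ℚ y := hy.tower_top
  set f : ℚ[X] := X ^ 2 - C (1 / 2) * X - C ((m : ℚ) / 2) with hf
  have hfm : f.Monic := by rw [hf]; monicity!
  have hfd : f.natDegree = 2 := by rw [hf]; compute_degree!
  have h1 : minpoly ℚ y ∣ f := by
    apply minpoly.dvd
    rw [hf]
    simp only [map_sub, map_mul, map_pow, aeval_X, aeval_C]
    have e1 : algebraMap ℚ M (1 / 2) = 1 / 2 := by
      rw [map_div₀, map_one, map_ofNat]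
    have e2 : algebraMap ℚ M ((m : ℚ) / 2) = (m : M) / 2 := by
      rw [map_div₀, map_intCast, map_ofNat]
    rw [e1, e2]
    have : y ^ 2 - 1 / 2 * y - (m : M) / 2 = (2 * y ^ 2 - y - m) / 2 := by
      field_simp
    rw [this, h, zero_div]
  have h2 : 2 ≤ (minpoly ℚ y).natDegree := by
    rw [minpoly.two_le_natDegree_iff hyQ]
    rintro ⟨q, hq⟩
    exact hirr q (by rw [← hq]; simp)
  have h3 : minpoly ℚ y = f :=
    (Polynomial.eq_of_monic_of_dvd_of_natDegree_le (minpoly.monic hyQ) hfm h1 (by rw [hfd]; exact h2)).symm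
  have h4 : minpoly ℚ y = (minpoly ℤ y).map (algebraMap ℤ ℚ) :=
    minpoly.isIntegrallyClosed_eq_field_fractions' ℚ hy
  have h5 : f.coeff 1 = (((minpoly ℤ y).coeff 1 : ℤ) : ℚ) := by
    rw [← h3, h4, coeff_map]
    simp
  have h6 : f.coeff 1 = - (1 / 2) := by
    rw [hf]
    simp [coeff_X_pow, coeff_C]
  rw [h6] at h5
  have h7 : (2 * (minpoly ℤ y).coeff 1 : ℤ) = -1 := by
    have : (2 : ℚ) * (((minpoly ℤ y).coeff 1 : ℤ) : ℚ) = -1 := by
      rw [← h5]; norm_num
    exact_mod_cast this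
  omega

/-- `2` is not inert in a field with the square root of a prime number `ℓ = 1` modulo `8`. -/
theorem quad_not_inert {M : Type} [Field M] [NumberField M] {ℓ : ℕ} (hℓ : ℓ.Prime) (h8 : ℓ % 8 = 1)
    {r : M} (hr : r ^ 2 = (ℓ : M)) : ¬ (Ideal.span {(2 : 𝓞 M)}).IsPrime := by
  intro hp
  obtain ⟨m, hm⟩ : ∃ m : ℕ, ℓ = 8 * m + 1 := ⟨ℓ / 8, by omega⟩
  have hr' : r ^ 2 = (((ℓ : ℤ)) : M) := by rw [hr, Int.cast_natCast]
  have hirr : ∀ q : ℚ, (q : M) ≠ r := by
    intro q hq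
    have h1 : (q ^ 2 : ℚ) = (ℓ : ℚ) := by
      have h2 : ((q ^ 2 : ℚ) : M) = ((ℓ : ℚ) : M) := by
        push_cast
        rw [hq, hr]
      exact_mod_cast h2
    have h3 : Irrational (√(ℓ : ℝ)) := hℓ.irrational_sqrt
    apply h3
    refine ⟨|q|, ?_⟩
    have h4 : ((q : ℝ)) ^ 2 = (ℓ : ℝ) := by exact_mod_cast h1
    rw [← h4, Real.sqrt_sq_eq_abs]
    simp
  have hu : IsIntegral ℤ ((1 + r) / 2) := Pool.Agent.U693.UN.quad_int (d := (ℓ : ℤ)) (by omega) hr'
  have hu' : IsIntegral ℤ ((1 + (-r)) / 2) := Pool.Agent.U693.UN.quad_int (d := (ℓ : ℤ)) (by omega)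
    (by rw [neg_sq]; exact hr')
  obtain ⟨u, hue⟩ : ∃ u : 𝓞 M, (u : M) = (1 + r) / 2 := ⟨⟨_, hu⟩, rfl⟩
  obtain ⟨u', hue'⟩ : ∃ u : 𝓞 M, (u : M) = (1 + (-r)) / 2 := ⟨⟨_, hu'⟩, rfl⟩
  have h7 : ((2 : 𝓞 M) : M) = 2 := map_ofNat (algebraMap (𝓞 M) M) 2
  have hmul : u * u' ∈ Ideal.span {(2 : 𝓞 M)} := by
    rw [Ideal.mem_span_singleton]
    refine ⟨((-m : ℤ) : 𝓞 M), ?_⟩
    apply RingOfIntegers.ext
    have h9 : ((((-m : ℤ)) : 𝓞 M) : M) = ((-m : ℤ) : M) := map_intCast (algebraMap (𝓞 M) M) (-m)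
    change (u : M) * (u' : M) = ((2 : 𝓞 M) : M) * ((((-m : ℤ)) : 𝓞 M) : M)
    rw [hue, hue', h7, h9]
    have h10 : r ^ 2 = 8 * (m : M) + 1 := by
      rw [hr, hm]
      push_cast
      ring
    push_cast
    have e : ((1 + r) / 2) * ((1 + (-r)) / 2) = (1 - r ^ 2) / 4 := by ring
    rw [e, h10]
    ring
  have key : ∀ s : M, s ^ 2 = (ℓ : M) → (∀ q : ℚ, (q : M) ≠ s) → ∀ x : 𝓞 M,
      (x : M) = (1 + s) / 2 → x ∉ Ideal.span {(2 : 𝓞 M)} := by
    intro s hs2 hsi x hx hmem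
    rw [Ideal.mem_span_singleton] at hmem
    obtain ⟨y, hy⟩ := hmem
    have h1 : (1 + s) / 2 = 2 * (y : M) := by
      have h5 := congrArg (algebraMap (𝓞 M) M) hy
      rw [map_mul, map_ofNat] at h5
      rw [← hx]
      exact h5
    have h2 : s = 4 * (y : M) - 1 := by
      linear_combination 2 * h1
    refine no_int (m := (m : ℤ)) y.isIntegral_coe ?_ fun q hq => hsi (4 * q - 1) ?_
    · have h3 : (4 * (y : M) - 1) ^ 2 = 8 * (m : M) + 1 := by
        rw [← h2, hs2, hm]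
        push_cast
        ring
      push_cast
      have h4 : (8 : M) * (2 * (y : M) ^ 2 - (y : M) - (m : M)) = 0 := by
        linear_combination h3
      exact (mul_eq_zero.1 h4).resolve_left (by norm_num)
    · push_cast
      rw [hq, h2]
  rcases hp.mem_or_mem hmul with h1 | h1
  · exact key r hr hirr u hue h1
  · refine key (-r) (by rw [neg_sq]; exact hr) (fun q hq => hirr (-q) ?_) u' hue' h1
    push_cast
    rw [hq, neg_neg]

/-- The primes for which the quadratic field is in the class and `2` splits in it. -/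
theorem tp_insert {A B : ℤ} {S : Finset ℤ} {ℓ : ℕ} (hℓ : ℓ.Prime)
    (h : Pool.Agent.U693.UN.Tp A B (insert 2 S) ℓ) :
    Pool.Agent.U693.UN.Tp A B S ℓ ∧ ℓ % 8 = 1 := by
  obtain ⟨h1, h2, h3, h4⟩ := h
  refine ⟨⟨fun h => h1 (Finset.mem_insert_of_mem h), h2,
    fun Q hQ => h3 Q (Finset.mem_insert_of_mem hQ), h4⟩, ?_⟩
  haveI := Fact.mk hℓ
  obtain ⟨c, hc⟩ := h3 2 (Finset.mem_insert_self _ _)
  have h5 : IsSquare (2 : ZMod ℓ) := by
    refine ⟨(c : ZMod ℓ), ?_⟩
    rw [← ZMod.intCast_zmod_eq_zero_iff_dvd] at hc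
    push_cast at hc
    linear_combination - hc
  have hne : ℓ ≠ 2 := by
    rintro rfl
    norm_num at h2
  rw [ZMod.exists_sq_eq_two_iff hne] at h5
  omega

end Pool.Agent.U845.UP
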