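import Pool.Agent.U845.UP.Cnt
import Pool.Agent.U845.UP.Del
import Pool.Agent.U845.UP.Ine

/-!
# The root number over all the fields of the class, for a positive proportion of all elliptic curves
-/

set_option autoImplicit false
set_option linter.all false

open Polynomial IsDedekindDomain NumberField
open scoped Classical IntermediateField

namespace Pool.Agent.U845.UP

open Pool.Agent.U693.UN
open Pool.Agent.N922.PQ hiding Cnd cnd_sq cnd_mul cnd_sig base_sq odd_top ns_top cnd_top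
open Pool.Agent.N922.PX (Fixed Unr LocalRootNumbers rootNumber Twist curve)

/-- The root number over a field of the class in which `2` is not inert. -/
theorem root_class {S T₀ : Finset ℤ} (h2 : (2 : ℤ) ∈ T₀) (h3 : (3 : ℤ) ∈ T₀) {p : ℤ × ℤ}
    {a b D : ℤ} (hT : TwistU S T₀ p a b D) {M : Type} [Field M] [NumberField M]
    (hM : InClass S p.1 p.2 M) (hd : 1 < Module.finrank ℚ M)
    (hi : ¬ (Ideal.span {(2 : 𝓞 M)}).IsPrime) {w : HeightOneSpectrum (𝓞 M) → ℤ}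
    (hw : LocalRootNumbers M (curve p) w) : rootNumber M w = 1 := by
  haveI := hM.galois
  obtain ⟨n, hn⟩ := hM.degree
  have hn1 : 1 ≤ n := by
    rcases Nat.eq_zero_or_pos n with rfl | h
    · rw [hn, pow_zero] at hd
      omega
    · exact h
  have hU : Unr M 2 := fun v _ h5 => hM.two v.asIdeal v.isPrime (by exact_mod_cast h5)
  obtain ⟨δ, hδ, hδv⟩ := exists_delta M
  have hTw : Twist M δ p a b D := by
    refine ⟨hT.eA, hT.eB, hT.pos, hT.sq, hT.oa, hT.ob, hT.D0, ?_, ?_⟩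
    · intro P hP hP'
      rcases hP' with rfl | rfl | h5
      · exact hT.irr 2 h2
      · exact hT.irr 3 h3
      · have hr := hM.ram P hP (hδ P hP h5)
        rw [hT.eA, hT.eB] at hr
        have hPD : ¬ P ∣ D := by
          rintro ⟨k, hk⟩
          apply hr 0
          rw [hk]
          exact ⟨b * P ^ 2 * k ^ 3, by ring⟩
        refine ⟨hPD, fun z hz => hr (z * D) ?_⟩
        have e : (z * D) ^ 3 + a * D ^ 2 * (z * D) + b * D ^ 3 = D ^ 3 * (z ^ 3 + a * z + b) := by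
          ring
        rw [e]
        exact dvd_mul_of_dvd_right hz _
    · intro P hP hPD
      obtain ⟨h5, h6⟩ := hT.spl P hP hPD
      refine ⟨h6, fun v hv => ?_⟩
      obtain ⟨h7, h8⟩ := hM.split P h5 v.asIdeal v.isPrime hv
      exact not_fixed' hn hn1 v hv h7 h8
  exact Pool.Agent.N922.PX.root_one Pool.Agent.N216.PX.t_TR Pool.Agent.N385.PX.PR
    Pool.Agent.N878.PX.t_rd (Pool.Agent.N433.PX.t_fa Pool.Agent.N216.PX.t_TR)
    Pool.Agent.N897.PX.ie Pool.Agent.N339.PX.ca Pool.Agent.N854.PX.cr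
    (Pool.Agent.N348.PX.cb Pool.Agent.N216.PX.t_TR) Pool.Agent.N771.PX.cc
    Pool.Agent.N865.PX.ja Pool.Agent.N56.PX.DS.ds M hn hn1 hU hi hδv hTw hw

/-- A positive proportion of all elliptic curves. -/
theorem finalP (K : Type) [Field K] [NumberField K] [IsGalois ℚ K] {n : ℕ}
    (hn : Module.finrank ℚ K = 2 ^ n)
    (h2 : ∀ 𝔭 : Ideal (𝓞 K), 𝔭.IsPrime → (2 : 𝓞 K) ∉ 𝔭 ^ 2) :
    ∃ S : Finset ℤ, (∀ Q ∈ S, IsPr Q ∧ Q % 8 = 1) ∧
    ∃ c : ℝ, 0 < c ∧ ∃ H₀ : ℕ, ∀ H ≥ H₀, {p : ℤ × ℤ | Crv H p.1 p.2}.Finite ∧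
    c * ({p : ℤ × ℤ | Crv H p.1 p.2}.ncard : ℝ) ≤
      ({p : ℤ × ℤ | Crv H p.1 p.2 ∧ (InClass S p.1 p.2 K ∧
        (∀ z : ℤ, ¬ (2 : ℤ) ∣ z ^ 3 + p.1 * z + p.2) ∧
        ∀ (M : Type) [Field M] [NumberField M], InClass S p.1 p.2 M →
          GoodV (M := M) (𝓞 M) p ∧ (1 < Module.finrank ℚ M →
            ¬ (Ideal.span {(2 : 𝓞 M)}).IsPrime → ∀ w : HeightOneSpectrum (𝓞 M) → ℤ,
              LocalRootNumbers M (curve p) w → rootNumber M w = 1))}.ncard : ℝ) := by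
  obtain ⟨γ, g, δ, hG, hdeg⟩ := Pool.Agent.N40.PQ.gen K
  -- the prime divisors of `δ`
  obtain ⟨T₀, hT₀, hδ₀⟩ : ∃ T : Finset ℤ, (∀ P ∈ T, IsPr P) ∧
      ∀ P : ℤ, IsPr P → P ∣ δ → P ∈ T := by
    have hf : {P : ℤ | IsPr P ∧ P ∣ δ}.Finite := by
      refine (Set.finite_Icc (-|δ|) |δ|).subset ?_
      rintro P ⟨-, h⟩
      have h3 : |P| ≤ |δ| := Int.le_of_dvd (abs_pos.2 hG.ne) ((abs_dvd_abs P δ).2 h)
      exact abs_le.1 h3
    refine ⟨hf.toFinset, fun P hP => ?_, fun P h1 h2 => ?_⟩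
    · exact (hf.mem_toFinset.1 hP).1
    · exact hf.mem_toFinset.2 ⟨h1, h2⟩
  obtain ⟨T, A, B, hTT, hT⟩ := Pool.Agent.N954.PQ.tch T₀ hT₀
  have hδ : ∀ P : ℤ, IsPr P → P ∣ δ → P ∈ T := fun P h1 h2 => hTT (hδ₀ P h1 h2)
  obtain ⟨S, s, hS, hdis, hsp, P, X₀, c, hc, hP, h⟩ := mainP parts2 lb Pool.Agent.N615.PV.fam2 bad
    N650.PM.gfr Pool.Agent.N273.PQ.finm Pool.Agent.N137.PV.tor Pool.Agent.N707.PQ.crv hT
    (fun Q => SplitMod Q g) (Pool.Agent.N40.PQ.spl K γ g δ hG hdeg T)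
  refine ⟨S, fun Q hQ => ⟨(hS Q hQ).1, (hS Q hQ).2.1⟩, ?_⟩
  refine Pool.Agent.N607.PQ.cnt _ P X₀ c hc hP fun X hX Hh hHh => (h X hX Hh hHh).trans ?_
  have hsub : {p : ℤ × ℤ | Crv Hh p.1 p.2 ∧ GoodP S T p} ⊆
      {p : ℤ × ℤ | Crv Hh p.1 p.2 ∧ (InClass S p.1 p.2 K ∧
        (∀ z : ℤ, ¬ (2 : ℤ) ∣ z ^ 3 + p.1 * z + p.2) ∧
        ∀ (M : Type) [Field M] [NumberField M], InClass S p.1 p.2 M →
          GoodV (M := M) (𝓞 M) p ∧ (1 < Module.finrank ℚ M →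
            ¬ (Ideal.span {(2 : 𝓞 M)}).IsPrime → ∀ w : HeightOneSpectrum (𝓞 M) → ℤ,
              LocalRootNumbers M (curve p) w → rootNumber M w = 1))} := by
    rintro p ⟨hp, ⟨h3, h4⟩, a, b, D, hT'⟩
    refine ⟨hp, base_class hn h2 hG hS hdis hδ hsp h3, h3 2 hT.1, fun M _ _ hM => ⟨h4 M hM, ?_⟩⟩
    intro hd hi w hw
    exact root_class hT.1 hT.2.1 hT' hM hd hi hw
  have h5 := Set.ncard_le_ncard hsub ((crv_fin Hh).subset fun p hp => hp.1)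
  exact_mod_cast h5

end Pool.Agent.U845.UP
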